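import Mathlib
import Pool.Agent.Helpers.HfDefs
import Pool.Agent.Helpers.HfMain

set_option autoImplicit false

namespace Pool.Agent.Results.MP_2e654e_an.HeatFlowNonRealZeros

open Pool.Agent.Hf

/-- There is an even real entire function `f` of order one and maximal type, with all zeros in a
horizontal strip, such that for some `lam > 0` the entire function `e^{-lam D^2} f` has infinitely
many non-real zeros. -/
theorem result :
    ∃ f : ℂ → ℂ, Differentiable ℂ f ∧ (∀ x : ℝ, (f x).im = 0) ∧ (∀ z, f (-z) = f z) ∧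
      HasOrderOne f ∧ HasMaximalType f ∧
      (∃ Δ : ℝ, 0 < Δ ∧ ∀ z, f z = 0 → |z.im| < Δ) ∧
      ∃ lam : ℝ, 0 < lam ∧ (∀ z, Summable (heatTerm lam f z)) ∧
        {z : ℂ | heat lam f z = 0 ∧ z.im ≠ 0}.Infinite :=
  ⟨ff, ff_differentiable, ff_real, ff_even, ff_order, ff_maxType,
    ⟨3, by norm_num, fun _ h => ff_zero h⟩, 1, by norm_num, main_zeros.1, main_zeros.2⟩

end Pool.Agent.Results.MP_2e654e_an.HeatFlowNonRealZeros
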